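import Mathlib

/-! Two families of rays on the same lines of the plane: the core of the proof that the sphere is not
partitioned into closed great-circle arcs of length at least `π`. -/

open Set

namespace Pool.Agent.H302GC

/-- abscissa at height `y` of the line `x = a y + b a` -/
def g (b : ℝ → ℝ) (y a : ℝ) : ℝ := a * y + b a

lemma g_shift (b : ℝ → ℝ) (y y' a : ℝ) : g b y' a = g b y a + (y' - y) * a := by
  unfold g; ring

/-- The lines `x = a y + b a`, `a ∈ J`; the upper rays `y ≥ Yp a` partition the plane, the lower rays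
`y ≤ Yn a` are pairwise disjoint, and `Yp a ≤ Yn a`. -/
structure Fam (J : Set ℝ) (b Yp Yn : ℝ → ℝ) : Prop where
  oc : J.OrdConnected
  le : ∀ a ∈ J, Yp a ≤ Yn a
  mono : ∀ y a a', a ∈ J → a' ∈ J → Yp a ≤ y → Yp a' ≤ y → a < a' → g b y a < g b y a'
  surj : ∀ y X, ∃ a ∈ J, Yp a ≤ y ∧ g b y a = X
  anti : ∀ y a a', a ∈ J → a' ∈ J → y ≤ Yn a → y ≤ Yn a' → a < a' → g b y a' < g b y a

/-- the component of the complement of `{a ∈ J | Yp a ≤ y}` which contains `r`, and the value there -/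
structure Gap (J : Set ℝ) (b Yp : ℝ → ℝ) (r y l ρ v : ℝ) : Prop where
  lr : l ≤ r
  rρ : r ≤ ρ
  lt : l < ρ
  inJ : ∀ a, l < a → a < ρ → a ∈ J
  out : ∀ a, l < a → a < ρ → y < Yp a
  nl : ∀ ε > 0, ∃ a ∈ J, Yp a ≤ y ∧ a ≤ l ∧ l - ε < a ∧ v - ε < g b y a
  nr : ∀ ε > 0, ∃ a ∈ J, Yp a ≤ y ∧ ρ ≤ a ∧ a < ρ + ε ∧ g b y a < v + ε
  vl : ∀ a ∈ J, Yp a ≤ y → a ≤ l → g b y a ≤ v
  vr : ∀ a ∈ J, Yp a ≤ y → ρ ≤ a → v ≤ g b y a

section
variable {J : Set ℝ} {b Yp Yn : ℝ → ℝ}

lemma Fam.mono' (h : Fam J b Yp Yn) {y a a' : ℝ} (ha : a ∈ J) (ha' : a' ∈ J) (h1 : Yp a ≤ y)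
    (h2 : Yp a' ≤ y) (h3 : a ≤ a') : g b y a ≤ g b y a' := by
  rcases h3.eq_or_lt with h4 | h4
  · rw [h4]
  · exact (h.mono y a a' ha ha' h1 h2 h4).le

lemma Fam.lt_of (h : Fam J b Yp Yn) {y a a' : ℝ} (ha : a ∈ J) (ha' : a' ∈ J) (h1 : Yp a ≤ y)
    (h2 : Yp a' ≤ y) (h3 : g b y a < g b y a') : a < a' := by
  by_contra hc
  push Not at hc
  exact absurd (h.mono' ha' ha h2 h1 hc) (not_le.mpr h3)

/-- reflection -/
lemma Fam.refl (h : Fam J b Yp Yn) :
    Fam (-J) (fun a => - b (-a)) (fun a => Yp (-a)) (fun a => Yn (-a)) where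
  oc := by
    constructor
    intro x hx y hy z hz
    rw [Set.mem_neg] at *
    exact h.oc.out hy hx ⟨by linarith [hz.2], by linarith [hz.1]⟩
  le := by
    intro a ha
    exact h.le _ ha
  mono := by
    intro y a a' ha ha' h1 h2 h3
    have := h.mono y (-a') (-a) ha' ha h2 h1 (by linarith)
    unfold g at *
    linarith
  surj := by
    intro y X
    obtain ⟨a, ha, h1, h2⟩ := h.surj y (-X)
    refine ⟨-a, by simpa using ha, by simpa using h1, ?_⟩
    unfold g at *
    simp only [neg_neg]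
    linarith
  anti := by
    intro y a a' ha ha' h1 h2 h3
    have := h.anti y (-a') (-a) ha' ha h2 h1 (by linarith)
    unfold g at *
    linarith

lemma Gap.refl {r y l ρ v : ℝ} (h : Gap J b Yp r y l ρ v) :
    Gap (-J) (fun a => - b (-a)) (fun a => Yp (-a)) (-r) y (-ρ) (-l) (-v) where
  lr := by linarith [h.rρ]
  rρ := by linarith [h.lr]
  lt := by linarith [h.lt]
  inJ := by
    intro a h1 h2
    exact h.inJ (-a) (by linarith) (by linarith)
  out := by
    intro a h1 h2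
    exact h.out (-a) (by linarith) (by linarith)
  nl := by
    intro ε hε
    obtain ⟨a, ha, h1, h2, h3, h4⟩ := h.nr ε hε
    refine ⟨-a, by simpa using ha, by simpa using h1, by linarith, by linarith, ?_⟩
    unfold g at *
    simp only [neg_neg]
    linarith
  nr := by
    intro ε hε
    obtain ⟨a, ha, h1, h2, h3, h4⟩ := h.nl ε hε
    refine ⟨-a, by simpa using ha, by simpa using h1, by linarith, by linarith, ?_⟩
    unfold g at *
    simp only [neg_neg]
    linarith
  vl := by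
    intro a ha h1 h2
    have := h.vr (-a) ha h1 (by linarith)
    unfold g at *
    linarith
  vr := by
    intro a ha h1 h2
    have := h.vl (-a) ha h1 (by linarith)
    unfold g at *
    linarith

/-- the upper rays present at height `y` are cofinal in `J` -/
lemma Fam.right_ne (h : Fam J b Yp Yn) {r : ℝ} (hr : r ∈ J) (y : ℝ) (hy : y < Yp r) :
    ∃ a ∈ J, Yp a ≤ y ∧ r < a := by
  by_contra hcon
  push Not at hcon
  obtain ⟨a0, ha0, h0, hg0⟩ := h.surj y 0
  set y' := Yp r with hy'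
  set M := g b y' r - (y' - y) * a0 with hM
  obtain ⟨a, ha, h1, hg⟩ := h.surj y (max 1 (M + 1))
  have haa : a0 < a := by
    apply h.lt_of ha0 ha h0 h1
    rw [hg, hg0]
    exact lt_of_lt_of_le one_pos (le_max_left _ _)
  have har : a ≤ r := hcon a ha h1
  have h2 : g b y' a ≤ g b y' r := h.mono' ha hr (h1.trans hy.le) le_rfl har
  have h3 := g_shift b y y' a
  have h4 : (y' - y) * a0 ≤ (y' - y) * a := by
    apply mul_le_mul_of_nonneg_left haa.le
    linarith
  have h5 : M + 1 ≤ g b y a := by rw [hg]; exact le_max_right _ _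
  linarith

lemma Fam.left_ne (h : Fam J b Yp Yn) {r : ℝ} (hr : r ∈ J) (y : ℝ) (hy : y < Yp r) :
    ∃ a ∈ J, Yp a ≤ y ∧ a < r := by
  obtain ⟨a, ha, h1, h2⟩ := h.refl.right_ne (r := -r) (by simpa using hr) y (by simpa using hy)
  exact ⟨-a, ha, h1, by linarith⟩

lemma Fam.exists_gap (h : Fam J b Yp Yn) {r : ℝ} (hr : r ∈ J) (y : ℝ) (hy : y < Yp r) :
    ∃ l ρ v, Gap J b Yp r y l ρ v := by
  set Λ : Set ℝ := {a | a ∈ J ∧ Yp a ≤ y ∧ a < r} with hΛ
  set R : Set ℝ := {a | a ∈ J ∧ Yp a ≤ y ∧ r < a} with hR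
  have hΛne : Λ.Nonempty := by
    obtain ⟨a, h1, h2, h3⟩ := h.left_ne hr y hy
    exact ⟨a, h1, h2, h3⟩
  have hRne : R.Nonempty := by
    obtain ⟨a, h1, h2, h3⟩ := h.right_ne hr y hy
    exact ⟨a, h1, h2, h3⟩
  have hΛb : BddAbove Λ := ⟨r, fun a ha => ha.2.2.le⟩
  have hRb : BddBelow R := ⟨r, fun a ha => ha.2.2.le⟩
  have hcross : ∀ a ∈ Λ, ∀ a' ∈ R, g b y a < g b y a' := by
    intro a ha a' ha'
    exact h.mono y a a' ha.1 ha'.1 ha.2.1 ha'.2.1 (ha.2.2.trans ha'.2.2)
  set v := sInf (g b y '' R) with hv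
  have hvb : BddBelow (g b y '' R) := by
    obtain ⟨a, ha⟩ := hΛne
    refine ⟨g b y a, ?_⟩
    rintro _ ⟨a', ha', rfl⟩
    exact (hcross a ha a' ha').le
  have hvl : ∀ a ∈ Λ, g b y a ≤ v := by
    intro a ha
    apply le_csInf (hRne.image _)
    rintro _ ⟨a', ha', rfl⟩
    exact (hcross a ha a' ha').le
  have hvr : ∀ a ∈ R, v ≤ g b y a := fun a ha => csInf_le hvb ⟨a, ha, rfl⟩
  have hnr : ∀ a ∈ J, Yp a ≤ y → a ≠ r := by
    intro a _ h1 h2
    rw [h2] at h1
    linarith
  have hdich : ∀ a ∈ J, Yp a ≤ y → a ∈ Λ ∨ a ∈ R := by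
    intro a ha h1
    rcases lt_or_gt_of_ne (hnr a ha h1) with h2 | h2
    · exact Or.inl ⟨ha, h1, h2⟩
    · exact Or.inr ⟨ha, h1, h2⟩
  have hlr : sSup Λ ≤ r := csSup_le hΛne (fun a ha => ha.2.2.le)
  have hrρ : r ≤ sInf R := le_csInf hRne (fun a ha => ha.2.2.le)
  refine ⟨sSup Λ, sInf R, v, hlr, hrρ, ?_, ?_, ?_, ?_, ?_, ?_, ?_⟩
  · -- lt
    obtain ⟨a, ha, h1, hg⟩ := h.surj y v
    rcases hdich a ha h1 with h2 | h2
    · have : sSup Λ ≤ a := by
        apply csSup_le hΛne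
        intro a' ha'
        by_contra hc
        push Not at hc
        have h3 := h.mono y a a' ha ha'.1 h1 ha'.2.1 hc
        have h4 := hvl a' ha'
        linarith
      have h5 : a < r := h2.2.2
      linarith
    · have : a ≤ sInf R := by
        apply le_csInf hRne
        intro a' ha'
        by_contra hc
        push Not at hc
        have h3 := h.mono y a' a ha'.1 ha ha'.2.1 h1 hc
        have h4 := hvr a' ha'
        linarith
      have h5 : r < a := h2.2.2
      linarith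
  · intro c h1 h2
    obtain ⟨a1, ha1⟩ := hΛne
    obtain ⟨a2, ha2⟩ := hRne
    exact h.oc.out ha1.1 ha2.1 ⟨(le_csSup hΛb ha1).trans h1.le, h2.le.trans (csInf_le hRb ha2)⟩
  · intro c h1 h2
    by_contra hc
    push Not at hc
    have hcJ : c ∈ J := by
      obtain ⟨a1, ha1⟩ := hΛne
      obtain ⟨a2, ha2⟩ := hRne
      exact h.oc.out ha1.1 ha2.1 ⟨(le_csSup hΛb ha1).trans h1.le, h2.le.trans (csInf_le hRb ha2)⟩
    rcases hdich c hcJ hc with h3 | h3
    · have := le_csSup hΛb h3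
      linarith
    · have := csInf_le hRb h3
      linarith
  · intro ε hε
    obtain ⟨a1, ha1, h1⟩ := exists_lt_of_lt_csSup hΛne (show sSup Λ - ε < sSup Λ by linarith)
    obtain ⟨a2, ha2, h2, hg2⟩ := h.surj y (v - ε / 2)
    have ha2' : a2 ∈ Λ := by
      rcases hdich a2 ha2 h2 with h3 | h3
      · exact h3
      · have := hvr a2 h3
        linarith
    rcases le_total a1 a2 with h3 | h3
    · exact ⟨a2, ha2, h2, le_csSup hΛb ha2', by linarith, by linarith⟩
    · have h4 := h.mono' ha2 ha1.1 h2 ha1.2.1 h3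
      exact ⟨a1, ha1.1, ha1.2.1, le_csSup hΛb ha1, by linarith, by linarith⟩
  · intro ε hε
    obtain ⟨a1, ha1, h1⟩ := exists_lt_of_csInf_lt hRne (show sInf R < sInf R + ε by linarith)
    obtain ⟨a2, ha2, h2, hg2⟩ := h.surj y (v + ε / 2)
    have ha2' : a2 ∈ R := by
      rcases hdich a2 ha2 h2 with h3 | h3
      · have := hvl a2 h3
        linarith
      · exact h3
    rcases le_total a1 a2 with h3 | h3
    · have h4 := h.mono' ha1.1 ha2 ha1.2.1 h2 h3
      exact ⟨a1, ha1.1, ha1.2.1, csInf_le hRb ha1, by linarith, by linarith⟩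
    · exact ⟨a2, ha2, h2, csInf_le hRb ha2', by linarith, by linarith⟩
  · intro a ha h1 h2
    rcases hdich a ha h1 with h3 | h3
    · exact hvl a h3
    · have : r < a := h3.2.2
      linarith
  · intro a ha h1 h2
    rcases hdich a ha h1 with h3 | h3
    · have : a < r := h3.2.2
      linarith
    · exact hvr a h3

variable {r y y' l l' ρ ρ' v v' : ℝ}

lemma Gap.le_l (G' : Gap J b Yp r y' l' ρ' v') (hy' : y' < Yp r) {a : ℝ} (h1 : Yp a ≤ y')
    (h2 : a ≤ r) : a ≤ l' := by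
  by_contra hc
  push Not at hc
  have h3 : a ≤ ρ' := h2.trans G'.rρ
  rcases h3.eq_or_lt with h4 | h4
  · have h5 : a = r := le_antisymm h2 (by rw [h4]; exact G'.rρ)
    rw [h5] at h1
    linarith
  · have := G'.out a hc h4
    linarith

lemma Gap.l_mono (G : Gap J b Yp r y l ρ v) (G' : Gap J b Yp r y' l' ρ' v') (hyy : y ≤ y')
    (hy' : y' < Yp r) : l ≤ l' := by
  by_contra hc
  push Not at hc
  obtain ⟨a, ha, h1, h2, h3, h4⟩ := G.nl (l - l') (by linarith)
  have := G'.le_l hy' (h1.trans hyy) (h2.trans G.lr)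
  linarith

lemma Gap.v_lower (G : Gap J b Yp r y l ρ v) (G' : Gap J b Yp r y' l' ρ' v') (hyy : y ≤ y')
    (hy' : y' < Yp r) : v + (y' - y) * l ≤ v' := by
  by_contra hc
  push Not at hc
  set D := v + (y' - y) * l - v' with hD
  have hDpos : 0 < D := by linarith
  have hk : 0 < 1 + (y' - y) := by linarith
  obtain ⟨a, ha, h1, h2, h3, h4⟩ := G.nl (D / (1 + (y' - y))) (by positivity)
  have h5 := G'.le_l hy' (h1.trans hyy) (h2.trans G.lr)
  have h6 := G'.vl a ha (h1.trans hyy) h5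
  rw [g_shift b y y' a] at h6
  have h7 : (y' - y) * (l - D / (1 + (y' - y))) ≤ (y' - y) * a :=
    mul_le_mul_of_nonneg_left h3.le (by linarith)
  have h8 : D / (1 + (y' - y)) * (1 + (y' - y)) = D := by field_simp
  nlinarith

/-- if the left end does not move, the value moves with it -/
lemma Fam.v_eq_of_l_eq (h : Fam J b Yp Yn) (G : Gap J b Yp r y l ρ v)
    (G' : Gap J b Yp r y' l ρ' v') (hyy : y ≤ y') (hy' : y' < Yp r) :
    v' = v + (y' - y) * l := by
  apply le_antisymm _ (G.v_lower G' hyy hy')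
  by_contra hc
  push Not at hc
  obtain ⟨w, hw1, hw2⟩ := exists_between hc
  obtain ⟨a, ha, h1, hg⟩ := h.surj y' w
  have har : a < r := by
    by_contra hcon
    push Not at hcon
    have h2 : ρ' ≤ a := by
      by_contra h3
      push Not at h3
      rcases hcon.eq_or_lt with h4 | h4
      · rw [← h4] at h1; linarith
      · have := G'.out a (lt_of_le_of_lt G'.lr h4) h3
        linarith
    have := G'.vr a ha h1 h2
    linarith
  have hal : a ≤ l := G'.le_l hy' h1 har.le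
  have hal' : a < l := by
    rcases hal.eq_or_lt with h2 | h2
    · exfalso
      obtain ⟨a2, ha2, h3, h4, h5, h6⟩ := G'.nl (v' - w) (by linarith)
      have := h.mono' ha2 ha h3 h1 (by rw [h2]; exact h4)
      linarith
    · exact h2
  obtain ⟨a2, ha2, h3, h4, h5, h6⟩ := G.nl (l - a) (by linarith)
  have h7 := h.mono y' a a2 ha ha2 h1 (h3.trans hyy) (by linarith)
  have h8 := G.vl a2 ha2 h3 h4
  rw [g_shift b y y' a2] at h7
  have h9 : (y' - y) * a2 ≤ (y' - y) * l := mul_le_mul_of_nonneg_left h4 (by linarith)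
  linarith

lemma Gap.ρ_anti (G : Gap J b Yp r y l ρ v) (G' : Gap J b Yp r y' l' ρ' v') (hyy : y ≤ y')
    (hy' : y' < Yp r) : ρ' ≤ ρ := by
  have := G.refl.l_mono G'.refl hyy (by simpa using hy')
  linarith

lemma Gap.v_upper (G : Gap J b Yp r y l ρ v) (G' : Gap J b Yp r y' l' ρ' v') (hyy : y ≤ y')
    (hy' : y' < Yp r) : v' ≤ v + (y' - y) * ρ := by
  have := G.refl.v_lower G'.refl hyy (by simpa using hy')
  linarith

lemma Fam.v_eq_of_ρ_eq (h : Fam J b Yp Yn) (G : Gap J b Yp r y l ρ v)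
    (G' : Gap J b Yp r y' l' ρ v') (hyy : y ≤ y') (hy' : y' < Yp r) :
    v' = v + (y' - y) * ρ := by
  have := h.refl.v_eq_of_l_eq G.refl G'.refl hyy (by simpa using hy')
  linarith

/-- if the right end moves: bounds inside -/
lemma Fam.inside_lower (h : Fam J b Yp Yn) (G : Gap J b Yp r y l ρ v)
    (G' : Gap J b Yp r y' l' ρ' v') (hyy : y ≤ y') (hy' : y' < Yp r) (hρ : ρ' < ρ) {c : ℝ}
    (h1 : l' < c) (h2 : c < ρ') : v' - (y' - y) * ρ' ≤ g b y c := by
  have hl := G.l_mono G' hyy hy'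
  by_contra hc
  push Not at hc
  set D := v' - (y' - y) * ρ' - g b y c with hD
  have hk : 0 < 1 + (y' - y) := by linarith
  obtain ⟨a, ha, h3, h4, h5, h6⟩ := G'.nr (min (ρ - ρ') (D / (1 + (y' - y))))
    (lt_min (by linarith) (by apply div_pos <;> linarith))
  have h7 := G'.vr a ha h3 h4
  have h8 : min (ρ - ρ') (D / (1 + (y' - y))) ≤ ρ - ρ' := min_le_left _ _
  have h9 : min (ρ - ρ') (D / (1 + (y' - y))) ≤ D / (1 + (y' - y)) := min_le_right _ _
  have haρ : a < ρ := by linarith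
  have hla : l < a := by linarith
  have hcρ : c < ρ := by linarith
  have hlc : l < c := by linarith
  have hcJ := G.inJ c hlc hcρ
  have hcY := G.out c hlc hcρ
  have haY := G.out a hla haρ
  have h10 := h.anti y c a hcJ ha (hcY.le.trans (h.le c hcJ)) (haY.le.trans (h.le a ha))
    (by linarith)
  rw [g_shift b y y' a] at h7
  have h11 : (y' - y) * a ≤ (y' - y) * (ρ' + D / (1 + (y' - y))) :=
    mul_le_mul_of_nonneg_left (by linarith) (by linarith)
  have h12 : D / (1 + (y' - y)) * (1 + (y' - y)) = D := by field_simp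
  have h13 : 0 < D / (1 + (y' - y)) := by apply div_pos <;> linarith
  nlinarith

lemma Fam.inside_upper (G : Gap J b Yp r y l ρ v)
    (G' : Gap J b Yp r y' l' ρ' v') (hyy : y ≤ y') (hy' : y' < Yp r) (hρ : ρ' < ρ) {ε : ℝ}
    (hε : 0 < ε) : ∃ c, l < c ∧ c < ρ ∧ g b y c < v' - (y' - y) * ρ' + ε := by
  have hl := G.l_mono G' hyy hy'
  obtain ⟨a, ha, h3, h4, h5, h6⟩ := G'.nr (min (ρ - ρ') ε) (lt_min (by linarith) hε)
  have h8 : min (ρ - ρ') ε ≤ ρ - ρ' := min_le_left _ _
  have h9 : min (ρ - ρ') ε ≤ ε := min_le_right _ _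
  refine ⟨a, by linarith [G'.lt], by linarith, ?_⟩
  rw [g_shift b y y' a] at h6
  have h11 : (y' - y) * ρ' ≤ (y' - y) * a := mul_le_mul_of_nonneg_left h4 (by linarith)
  linarith

lemma Fam.F1 (h : Fam J b Yp Yn) {y0 ys : ℝ} (hys : ys < Yp r) (hy0 : y0 < ys) (l ρ v : ℝ → ℝ)
    (hG : ∀ y, y ≤ ys → Gap J b Yp r y (l y) (ρ y) (v y)) (cl : ContinuousAt l y0)
    (cρ : ContinuousAt ρ y0) (hmv : ∀ y, y0 < y → y ≤ ys → ρ y < ρ y0) (c : ℝ)
    (h1 : l y0 < c) (h2 : c < ρ y0) : v y0 ≤ g b y0 c := by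
  by_contra hcon
  push Not at hcon
  set η := v y0 - g b y0 c with hη
  have hηpos : 0 < η := by linarith
  have e1 : ∀ᶠ y in nhds y0, l y < c := cl.eventually_lt continuousAt_const h1
  have e2 : ∀ᶠ y in nhds y0, c < ρ y := continuousAt_const.eventually_lt cρ h2
  obtain ⟨δ, hδ, hd⟩ := Metric.eventually_nhds_iff.mp (e1.and e2)
  have hG0 := hG y0 hy0.le
  have hlt := hG0.lt
  set t := min (δ / 2) (min (ys - y0) (η / (2 * (ρ y0 - l y0)))) with ht
  have hq : 0 < η / (2 * (ρ y0 - l y0)) := by apply div_pos hηpos; linarith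
  have htpos : 0 < t := lt_min (by linarith) (lt_min (by linarith) hq)
  have ht1 : t ≤ δ / 2 := min_le_left _ _
  have ht2 : t ≤ ys - y0 := (min_le_right _ _).trans (min_le_left _ _)
  have ht3 : t ≤ η / (2 * (ρ y0 - l y0)) := (min_le_right _ _).trans (min_le_right _ _)
  have hdist : dist (y0 + t) y0 < δ := by
    rw [Real.dist_eq, add_sub_cancel_left, abs_of_pos htpos]
    linarith
  obtain ⟨h3, h4⟩ := hd hdist
  have hG1 := hG (y0 + t) (by linarith)
  have hYr : y0 + t < Yp r := by linarith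
  have hρ := hmv (y0 + t) (by linarith) (by linarith)
  have h5 := h.inside_lower hG0 hG1 (by linarith) hYr hρ h3 h4
  have h6 := hG0.v_lower hG1 (by linarith) hYr
  rw [add_sub_cancel_left] at h5 h6
  have h7 : t * ρ (y0 + t) ≤ t * ρ y0 := mul_le_mul_of_nonneg_left hρ.le htpos.le
  have h8 : t * (ρ y0 - l y0) ≤ η / (2 * (ρ y0 - l y0)) * (ρ y0 - l y0) :=
    mul_le_mul_of_nonneg_right ht3 (by linarith)
  have h9 : η / (2 * (ρ y0 - l y0)) * (ρ y0 - l y0) = η / 2 := by
    have : ρ y0 - l y0 ≠ 0 := by linarith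
    field_simp
  nlinarith

lemma Fam.caseB (h : Fam J b Yp Yn) {y0 y1 : ℝ} (hy1 : y1 < Yp r) (hy0 : y0 < y1) (l ρ v : ℝ → ℝ)
    (hG : ∀ y, y ≤ y1 → Gap J b Yp r y (l y) (ρ y) (v y)) (cl : ContinuousAt l y0)
    (cρ : ContinuousAt ρ y0) (hl : l y1 = l y0) : False := by
  have hG0 := hG y0 hy0.le
  have hlc : ∀ y, y0 ≤ y → y ≤ y1 → l y = l y0 := by
    intro y h1 h2
    apply le_antisymm
    · rw [← hl]
      exact (hG y h2).l_mono (hG y1 le_rfl) h2 hy1
    · exact hG0.l_mono (hG y h2) h1 (by linarith)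
  have hmv : ∀ y, y0 < y → y ≤ y1 → ρ y < ρ y0 := by
    intro y h1 h2
    have hGy := hG y h2
    rcases (hG0.ρ_anti hGy h1.le (by linarith)).eq_or_lt with h3 | h3
    · exfalso
      have hGy' := hGy
      rw [hlc y h1.le h2] at hGy
      have h4 := h.v_eq_of_l_eq hG0 hGy h1.le (by linarith)
      rw [h3] at hGy'
      have h5 := h.v_eq_of_ρ_eq hG0 hGy' h1.le (by linarith)
      have h6 := hG0.lt
      have h7 : (y - y0) * l y0 < (y - y0) * ρ y0 := mul_lt_mul_of_pos_left h6 (by linarith)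
      linarith
    · exact h3
  have hG1 := hG y1 le_rfl
  have hρ1 := hmv y1 hy0 le_rfl
  have hlt1 := hG1.lt
  rw [hl] at hlt1
  have hε : 0 < (y1 - y0) * (ρ y1 - l y0) := mul_pos (by linarith) (by linarith)
  obtain ⟨c, h1, h2, h3⟩ := Fam.inside_upper hG0 hG1 hy0.le hy1 hρ1 hε
  have hG1' := hG1
  rw [hl] at hG1'
  have h4 := h.v_eq_of_l_eq hG0 hG1' hy0.le hy1
  have h5 := h.F1 hy1 hy0 l ρ v hG cl cρ hmv c h1 h2
  nlinarith

theorem Fam.false (h : Fam J b Yp Yn) (hne : J.Nonempty) : False := by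
  obtain ⟨r, hr⟩ := hne
  set ys := Yp r - 1 with hys
  have hysr : ys < Yp r := by linarith
  have hex : ∀ y, ∃ l ρ v, Gap J b Yp r (min y ys) l ρ v := fun y =>
    h.exists_gap hr _ (lt_of_le_of_lt (min_le_right _ _) hysr)
  choose l ρ v hG using hex
  have hml : Monotone l := fun y y' hyy =>
    (hG y).l_mono (hG y') (min_le_min_right _ hyy) (lt_of_le_of_lt (min_le_right _ _) hysr)
  have hmρ : Antitone ρ := fun y y' hyy =>
    (hG y).ρ_anti (hG y') (min_le_min_right _ hyy) (lt_of_le_of_lt (min_le_right _ _) hysr)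
  have hc := hml.countable_not_continuousAt.union hmρ.countable_not_continuousAt
  obtain ⟨y0, hy0, hy0'⟩ := (hc.dense_compl ℝ).inter_open_nonempty (Iio ys) isOpen_Iio
    ⟨ys - 1, by simp⟩
  have hy0s : y0 < ys := hy0
  simp only [mem_compl_iff, mem_union, mem_ofPred_eq, not_or, not_not] at hy0'
  obtain ⟨cl, cρ⟩ := hy0'
  have hG' : ∀ y, y ≤ ys → Gap J b Yp r y (l y) (ρ y) (v y) := by
    intro y hy
    have := hG y
    rwa [min_eq_left hy] at this
  have hG0 := hG' y0 hy0s.le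
  by_cases hA : ∀ y, y0 < y → y ≤ ys → ρ y < ρ y0
  · by_cases hB : ∀ y, y0 < y → y ≤ ys → l y0 < l y
    · have f1 := h.F1 hysr hy0s l ρ v hG' cl cρ hA
      have f2 := h.refl.F1 (r := -r) (ys := ys) (y0 := y0) (by simpa using hysr) hy0s
        (fun y => - ρ y) (fun y => - l y) (fun y => - v y) (fun y hy => (hG' y hy).refl) cρ.neg
        cl.neg (fun y h1 h2 => by
          have := hB y h1 h2
          show - l y < - l y0
          linarith)
      obtain ⟨c1, h1, h2⟩ := exists_between hG0.lt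
      obtain ⟨c2, h3, h4⟩ := exists_between h2
      have a1 := f1 c2 (by linarith) h4
      have a2 := f2 (-c1) (by linarith) (by linarith)
      have a3 : g b y0 c1 ≤ v y0 := by
        unfold g at *
        simp only [neg_neg] at a2
        linarith
      have c1J := hG0.inJ c1 h1 (by linarith)
      have c2J := hG0.inJ c2 (by linarith) h4
      have c1Y := hG0.out c1 h1 (by linarith)
      have c2Y := hG0.out c2 (by linarith) h4
      have := h.anti y0 c1 c2 c1J c2J (c1Y.le.trans (h.le c1 c1J)) (c2Y.le.trans (h.le c2 c2J)) h3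
      linarith
    · push Not at hB
      obtain ⟨y1, h1, h2, h3⟩ := hB
      exact h.caseB (y0 := y0) (y1 := y1) (by linarith) h1 l ρ v (fun y hy => hG' y (by linarith))
        cl cρ (le_antisymm h3 (hml h1.le))
  · push Not at hA
    obtain ⟨y1, h1, h2, h3⟩ := hA
    apply h.refl.caseB (r := -r) (y0 := y0) (y1 := y1) (by
        show y1 < Yp (- -r)
        rw [neg_neg]
        linarith) h1 (fun y => - ρ y) (fun y => - l y)
      (fun y => - v y) (fun y hy => (hG' y (by linarith)).refl) cρ.neg cl.neg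
    have := le_antisymm (hmρ h1.le) h3
    show - ρ y1 = - ρ y0
    rw [this]

end

end Pool.Agent.H302GC
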