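import Mathlib
import Pool.Agent.H302GC.Core

/-! Great-circle arcs of length at least `π` in gnomonic coordinates. -/

open Set

namespace Pool.Agent.H302GC

abbrev E3 := EuclideanSpace ℝ (Fin 3)

/-- `u, v, n` is an orthonormal triple -/
structure Frame (u v n : E3) : Prop where
  uu : inner ℝ u u = (1 : ℝ)
  vv : inner ℝ v v = (1 : ℝ)
  nn : inner ℝ n n = (1 : ℝ)
  uv : inner ℝ u v = (0 : ℝ)
  un : inner ℝ u n = (0 : ℝ)
  vn : inner ℝ v n = (0 : ℝ)

section
variable {u v n : E3}

lemma Frame.in_u (F : Frame u v n) (x y z : ℝ) : inner ℝ u (x • u + y • v + z • n) = x := by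
  simp only [inner_add_right, inner_smul_right, F.uu, F.uv, F.un]; ring

lemma Frame.in_v (F : Frame u v n) (x y z : ℝ) : inner ℝ v (x • u + y • v + z • n) = y := by
  simp only [inner_add_right, inner_smul_right, F.vv, F.vn, real_inner_comm u v, F.uv]; ring

lemma Frame.in_n (F : Frame u v n) (x y z : ℝ) : inner ℝ n (x • u + y • v + z • n) = z := by
  simp only [inner_add_right, inner_smul_right, F.nn, real_inner_comm u n, F.un,
    real_inner_comm v n, F.vn]; ring

lemma Frame.coords (F : Frame u v n) {x y z x' y' z' : ℝ}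
    (h : x • u + y • v + z • n = x' • u + y' • v + z' • n) : x = x' ∧ y = y' ∧ z = z' := by
  refine ⟨?_, ?_, ?_⟩
  · rw [← F.in_u x y z, h, F.in_u]
  · rw [← F.in_v x y z, h, F.in_v]
  · rw [← F.in_n x y z, h, F.in_n]

lemma Frame.decomp (F : Frame u v n) (x : E3) :
    x = inner ℝ u x • u + inner ℝ v x • v + inner ℝ n x • n := by
  have ho' : Orthonormal ℝ ![u, v, n] := by
    rw [orthonormal_iff_ite]
    intro i j
    have e1 := real_inner_comm u v
    have e2 := real_inner_comm u n
    have e3 := real_inner_comm v n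
    rw [F.uv] at e1
    rw [F.un] at e2
    rw [F.vn] at e3
    fin_cases i <;> fin_cases j
    · simpa using F.uu
    · simpa using F.uv
    · simpa using F.un
    · simpa using e1
    · simpa using F.vv
    · simpa using F.vn
    · simpa using e2
    · simpa using e3
    · simpa using F.nn
  have ho : Orthonormal ℝ ((univ : Set (Fin 3)).domRestrict ![u, v, n]) :=
    ho'.comp _ Subtype.val_injective
  obtain ⟨b, hb⟩ := ho.exists_orthonormalBasis_extension_of_card_eq (by simp)
  have h0 : b 0 = u := hb 0 (mem_univ _)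
  have h1 : b 1 = v := hb 1 (mem_univ _)
  have h2 : b 2 = n := hb 2 (mem_univ _)
  have h := b.sum_repr' x
  rw [Fin.sum_univ_three, h0, h1, h2] at h
  exact h.symm

lemma Frame.inner_self (F : Frame u v n) (x y z : ℝ) :
    inner ℝ (x • u + y • v + z • n) (x • u + y • v + z • n) = x ^ 2 + y ^ 2 + z ^ 2 := by
  have h1 := F.in_u x y z
  have h2 := F.in_v x y z
  have h3 := F.in_n x y z
  set w := x • u + y • v + z • n with hw
  conv_lhs => rw [hw]
  rw [inner_add_left, inner_add_left, inner_smul_left, inner_smul_left, inner_smul_left, ← hw,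
    h1, h2, h3]
  simp
  ring

lemma exists_normal {u v : E3} (hu : inner ℝ u u = (1 : ℝ)) (hv : inner ℝ v v = (1 : ℝ))
    (huv : inner ℝ u v = (0 : ℝ)) : ∃ n, Frame u v n := by
  have ho : Orthonormal ℝ (({0, 1} : Set (Fin 3)).domRestrict ![u, v, 0]) := by
    rw [orthonormal_iff_ite]
    have e1 := real_inner_comm u v
    rw [huv] at e1
    rintro ⟨i, hi⟩ ⟨j, hj⟩
    rcases hi with rfl | hi
    · rcases hj with rfl | hj
      · change inner ℝ u u = _
        rw [hu]
        rfl
      · rw [mem_singleton_iff] at hj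
        subst hj
        change inner ℝ u v = _
        rw [huv, if_neg (fun hh => absurd (show (0 : Fin 3) = 1 from congrArg Subtype.val hh)
          (by decide))]
    · rw [mem_singleton_iff] at hi
      subst hi
      rcases hj with rfl | hj
      · change inner ℝ v u = _
        rw [e1, if_neg (fun hh => absurd (show (1 : Fin 3) = 0 from congrArg Subtype.val hh)
          (by decide))]
      · rw [mem_singleton_iff] at hj
        subst hj
        change inner ℝ v v = _
        rw [hv]
        rfl
  obtain ⟨b, hb⟩ := ho.exists_orthonormalBasis_extension_of_card_eq (by simp)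
  have h0 : b 0 = u := hb 0 (by simp)
  have h1 : b 1 = v := hb 1 (by simp)
  have hob := b.orthonormal
  rw [orthonormal_iff_ite] at hob
  refine ⟨b 2, hu, hv, ?_, huv, ?_, ?_⟩
  · simpa only [if_true] using hob 2 2
  · simpa [h0] using hob 0 2
  · simpa [h1] using hob 1 2

/-- how an arc `B` looks like in the gnomonic coordinates `(X, Y) ↦ X u - Y v + n` -/
structure Rays (u v n : E3) (B : Set E3) (a b Yp Yn : ℝ) : Prop where
  le : Yp ≤ Yn
  mem : ∃ c : ℝ, 0 < c ∧ c • (a • u - v) ∈ B
  up : ∀ Y, Yp ≤ Y → ∃ c : ℝ, 0 < c ∧ c • ((a * Y + b) • u - Y • v + n) ∈ B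
  dn : ∀ Y, Y ≤ Yn → ∃ c : ℝ, 0 < c ∧ (-c) • ((a * Y + b) • u - Y • v + n) ∈ B
  conv : ∀ X Y c : ℝ, 0 < c → c • (X • u - Y • v + n) ∈ B → X = a * Y + b ∧ Yp ≤ Y
  uniq : ∀ a' c : ℝ, 0 < c → c • (a' • u - v) ∈ B → a' = a

lemma rays_of (F : Frame u v n) {a κ e1 e2 e3 α β : ℝ} (hκ : 0 < κ) (he3 : 0 < e3)
    (hα : 0 < α) (hα' : α < Real.pi) (hβ : 0 < β) (hβ' : β < Real.pi) (hαβ : Real.pi ≤ α + β)
    {B : Set E3} (hB : B = (fun φ : ℝ => Real.cos φ • (κ • (a • u - v)) +
      Real.sin φ • (e1 • u + e2 • v + e3 • n)) '' Icc (-α) β) :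
    ∃ b Yp Yn, Rays u v n B a b Yp Yn := by
  have hsβ : 0 < Real.sin β := Real.sin_pos_of_pos_of_lt_pi hβ hβ'
  have hsα : 0 < Real.sin α := Real.sin_pos_of_pos_of_lt_pi hα hα'
  have hpt : ∀ φ : ℝ, Real.cos φ • (κ • (a • u - v)) + Real.sin φ • (e1 • u + e2 • v + e3 • n) =
      (κ * a * Real.cos φ + e1 * Real.sin φ) • u + (-κ * Real.cos φ + e2 * Real.sin φ) • v +
        (e3 * Real.sin φ) • n := by
    intro φ; module
  have hz : ∀ c X Y : ℝ, c • (X • u - Y • v + n) = (c * X) • u + (-(c * Y)) • v + c • n := by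
    intro c X Y; module
  have hz0 : ∀ c a' : ℝ, c • (a' • u - v) = (c * a') • u + (-c) • v + (0 : ℝ) • n := by
    intro c a'; module
  refine ⟨(e1 + a * e2) / e3, (κ * (Real.cos β / Real.sin β) - e2) / e3,
    (-κ * (Real.cos α / Real.sin α) - e2) / e3, ?_, ?_, ?_, ?_, ?_, ?_⟩
  · apply div_le_div_of_nonneg_right _ he3.le
    have h1 : Real.cos β / Real.sin β + Real.cos α / Real.sin α ≤ 0 := by
      rw [div_add_div _ _ hsβ.ne' hsα.ne']
      apply div_nonpos_of_nonpos_of_nonneg _ (mul_pos hsβ hsα).le
      have h2 : Real.sin (α + β) ≤ 0 := by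
        have h3 : Real.sin (α + β) = - Real.sin (α + β - Real.pi) := by
          rw [Real.sin_sub_pi]; ring
        rw [h3]
        have := Real.sin_nonneg_of_nonneg_of_le_pi (x := α + β - Real.pi) (by linarith)
          (by linarith)
        linarith
      rw [Real.sin_add] at h2
      linarith
    nlinarith
  · refine ⟨κ, hκ, ?_⟩
    rw [hB]
    refine ⟨0, ⟨by linarith, hβ.le⟩, ?_⟩
    simp
  · intro Y hY
    set k := (e3 * Y + e2) / κ with hk
    have hkκ : κ * k = e3 * Y + e2 := by rw [hk]; field_simp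
    have hkβ : Real.cos β / Real.sin β ≤ k := by
      rw [div_le_iff₀ he3] at hY
      by_contra hc
      push Not at hc
      have := mul_lt_mul_of_pos_left hc hκ
      linarith
    set φ := Real.pi / 2 - Real.arctan k with hφ
    have hsin : Real.sin φ = Real.cos (Real.arctan k) := by rw [hφ, Real.sin_pi_div_two_sub]
    have hcos : Real.cos φ = Real.sin (Real.arctan k) := by rw [hφ, Real.cos_pi_div_two_sub]
    have hspos : 0 < Real.sin φ := by rw [hsin]; exact Real.cos_arctan_pos k
    have hck : Real.cos φ = k * Real.sin φ := by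
      have h1 := Real.tan_arctan k
      rw [Real.tan_eq_sin_div_cos, div_eq_iff (Real.cos_arctan_pos k).ne'] at h1
      rw [hcos, hsin, h1]
    have hφβ : φ ≤ β := by
      have h1 : Real.arctan (Real.cos β / Real.sin β) = Real.pi / 2 - β := by
        rw [← Real.cos_pi_div_two_sub β, ← Real.sin_pi_div_two_sub β,
          ← Real.tan_eq_sin_div_cos]
        exact Real.arctan_tan (by linarith) (by linarith)
      have h2 := Real.arctan_mono hkβ
      rw [h1] at h2
      linarith
    have hφ0 : -α ≤ φ := by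
      have := Real.arctan_lt_pi_div_two k
      linarith
    refine ⟨e3 * Real.sin φ, mul_pos he3 hspos, ?_⟩
    rw [hB]
    refine ⟨φ, ⟨hφ0, hφβ⟩, ?_⟩
    show Real.cos φ • (κ • (a • u - v)) + Real.sin φ • (e1 • u + e2 • v + e3 • n) = _
    rw [hpt, hz]
    congr 2
    · congr 1
      rw [hck]
      have hb : (e1 + a * e2) / e3 * e3 = e1 + a * e2 := by field_simp
      linear_combination (a * Real.sin φ) * hkκ - Real.sin φ * hb
    · congr 1
      rw [hck]
      linear_combination (- Real.sin φ) * hkκ
  · intro Y hY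
    set k := (e3 * Y + e2) / κ with hk
    have hkκ : κ * k = e3 * Y + e2 := by rw [hk]; field_simp
    have hkα : k ≤ - (Real.cos α / Real.sin α) := by
      rw [le_div_iff₀ he3] at hY
      by_contra hc
      push Not at hc
      have := mul_lt_mul_of_pos_left hc hκ
      linarith
    set φ := -(Real.pi / 2) - Real.arctan k with hφ
    have hsin : Real.sin φ = - Real.cos (Real.arctan k) := by
      rw [hφ, show -(Real.pi / 2) - Real.arctan k = -(Real.arctan k + Real.pi / 2) by ring,
        Real.sin_neg, Real.sin_add_pi_div_two]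
    have hcos : Real.cos φ = - Real.sin (Real.arctan k) := by
      rw [hφ, show -(Real.pi / 2) - Real.arctan k = -(Real.arctan k + Real.pi / 2) by ring,
        Real.cos_neg, Real.cos_add_pi_div_two]
    have hsneg : Real.sin φ < 0 := by
      rw [hsin]
      have := Real.cos_arctan_pos k
      linarith
    have hck : Real.cos φ = k * Real.sin φ := by
      have h1 := Real.tan_arctan k
      rw [Real.tan_eq_sin_div_cos, div_eq_iff (Real.cos_arctan_pos k).ne'] at h1
      rw [hcos, hsin, h1]
      ring
    have hφα : -α ≤ φ := by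
      have h1 : Real.arctan (-(Real.cos α / Real.sin α)) = α - Real.pi / 2 := by
        rw [Real.arctan_neg, ← Real.cos_pi_div_two_sub α, ← Real.sin_pi_div_two_sub α,
          ← Real.tan_eq_sin_div_cos, Real.arctan_tan (by linarith) (by linarith)]
        ring
      have h2 := Real.arctan_mono hkα
      rw [h1] at h2
      linarith
    have hφ0 : φ ≤ β := by
      have := Real.neg_pi_div_two_lt_arctan k
      linarith
    refine ⟨-(e3 * Real.sin φ), by nlinarith, ?_⟩
    rw [hB]
    refine ⟨φ, ⟨hφα, hφ0⟩, ?_⟩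
    show Real.cos φ • (κ • (a • u - v)) + Real.sin φ • (e1 • u + e2 • v + e3 • n) = _
    rw [hpt, hz, neg_neg]
    congr 2
    · congr 1
      rw [hck]
      have hb : (e1 + a * e2) / e3 * e3 = e1 + a * e2 := by field_simp
      linear_combination (a * Real.sin φ) * hkκ - Real.sin φ * hb
    · congr 1
      rw [hck]
      linear_combination (- Real.sin φ) * hkκ
  · intro X Y c hc hm
    rw [hB] at hm
    obtain ⟨φ, ⟨h1, h2⟩, h3⟩ := hm
    change Real.cos φ • (κ • (a • u - v)) + Real.sin φ • (e1 • u + e2 • v + e3 • n) = _ at h3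
    rw [hpt, hz] at h3
    obtain ⟨h4, h5, h6⟩ := F.coords h3
    have hs : 0 < Real.sin φ := by
      by_contra hcon
      push Not at hcon
      nlinarith
    have hφ : 0 < φ := by
      by_contra hcon
      push Not at hcon
      have := Real.sin_nonpos_of_nonpos_of_neg_pi_le hcon (by linarith)
      linarith
    have h7 : Real.cos β / Real.sin β ≤ Real.cos φ / Real.sin φ := by
      rw [div_le_div_iff₀ hsβ hs]
      have h8 : 0 ≤ Real.sin (β - φ) :=
        Real.sin_nonneg_of_nonneg_of_le_pi (by linarith) (by linarith)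
      rw [Real.sin_sub] at h8
      linarith
    have hY : Y = (κ * (Real.cos φ / Real.sin φ) - e2) / e3 := by
      rw [eq_div_iff he3.ne']
      have h9 : (Y * e3 - (κ * (Real.cos φ / Real.sin φ) - e2)) * Real.sin φ = 0 := by
        have : κ * (Real.cos φ / Real.sin φ) * Real.sin φ = κ * Real.cos φ := by
          field_simp
        rw [← h6] at h5
        linear_combination h5 - this
      have := (mul_eq_zero.mp h9).resolve_right hs.ne'
      linarith
    constructor
    · have h10 : (X - (a * Y + (e1 + a * e2) / e3)) * (e3 * Real.sin φ) = 0 := by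
        have : (e1 + a * e2) / e3 * e3 = e1 + a * e2 := by field_simp
        rw [← h6] at h4 h5
        linear_combination -h4 - a * h5 - Real.sin φ * this
      have := (mul_eq_zero.mp h10).resolve_right (mul_pos he3 hs).ne'
      linarith
    · rw [hY]
      apply div_le_div_of_nonneg_right _ he3.le
      have := mul_le_mul_of_nonneg_left h7 hκ.le
      linarith
  · intro a' c hc hm
    rw [hB] at hm
    obtain ⟨φ, ⟨h1, h2⟩, h3⟩ := hm
    change Real.cos φ • (κ • (a • u - v)) + Real.sin φ • (e1 • u + e2 • v + e3 • n) = _ at h3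
    rw [hpt, hz0] at h3
    obtain ⟨h4, h5, h6⟩ := F.coords h3
    have hs : Real.sin φ = 0 := (mul_eq_zero.mp h6).resolve_left he3.ne'
    have hφ : φ = 0 := (Real.sin_eq_zero_iff_of_lt_of_lt (by linarith) (by linarith)).mp hs
    rw [hφ] at h4 h5
    simp only [Real.cos_zero, Real.sin_zero, mul_one, mul_zero, add_zero] at h4 h5
    have hcκ : c = κ := by linarith
    rw [hcκ] at h4
    exact (mul_left_cancel₀ hκ.ne' h4).symm

end

end Pool.Agent.H302GC
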