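import Mathlib
import Pool.Agent.H302GC.Geo

/-! A second great-circle arc of length at least `π`, disjoint from the first one. -/

open Set

namespace Pool.Agent.H302GC

section
variable {u v n : E3}

lemma Frame.circle_mem (F : Frame u v n) {LA : ℝ} (hLA : Real.pi ≤ LA) {A : Set E3}
    (hA : A = (fun t : ℝ => Real.cos t • u + Real.sin t • v) '' Icc 0 LA) {q1 q2 : ℝ}
    (h1 : q1 ^ 2 + q2 ^ 2 = 1) (h2 : 0 ≤ q2) : q1 • u + q2 • v ∈ A := by
  rw [hA]
  have hq1 : -1 ≤ q1 := by nlinarith
  have hq1' : q1 ≤ 1 := by nlinarith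
  refine ⟨Real.arccos q1, ⟨Real.arccos_nonneg _, (Real.arccos_le_pi _).trans hLA⟩, ?_⟩
  show Real.cos (Real.arccos q1) • u + Real.sin (Real.arccos q1) • v = _
  rw [Real.cos_arccos hq1 hq1', Real.sin_arccos,
    show 1 - q1 ^ 2 = q2 ^ 2 by linarith, Real.sqrt_sq h2]

lemma other (F : Frame u v n) {LA : ℝ} (hLA : Real.pi ≤ LA) {A : Set E3}
    (hA : A = (fun t : ℝ => Real.cos t • u + Real.sin t • v) '' Icc 0 LA)
    {u' v' : E3} (hu' : inner ℝ u' u' = (1 : ℝ)) (hv' : inner ℝ v' v' = (1 : ℝ))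
    (huv' : inner ℝ u' v' = (0 : ℝ)) {L : ℝ} (hL : Real.pi ≤ L) {B : Set E3}
    (hB : B = (fun t : ℝ => Real.cos t • u' + Real.sin t • v') '' Icc 0 L)
    (hAB : Disjoint A B) : ∃ a b Yp Yn, Rays u v n B a b Yp Yn := by
  have hpi := Real.pi_pos
  have hmem : ∀ t, 0 ≤ t → t ≤ L → Real.cos t • u' + Real.sin t • v' ∈ B := by
    intro t h1 h2
    rw [hB]
    exact ⟨t, ⟨h1, h2⟩, rfl⟩
  have hvu' : inner ℝ v' u' = (0 : ℝ) := by rw [real_inner_comm, huv']
  have hunit : ∀ t : ℝ, inner ℝ (Real.cos t • u' + Real.sin t • v')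
      (Real.cos t • u' + Real.sin t • v') = (1 : ℝ) := by
    intro t
    simp only [inner_add_left, inner_add_right, inner_smul_left, inner_smul_right, hu', hv', huv',
      hvu']
    simp
    have := Real.sin_sq_add_cos_sq t
    nlinarith
  -- points of the equator in `B` are not in the upper half of the equator
  have hneg : ∀ x ∈ B, inner ℝ x x = (1 : ℝ) → inner ℝ n x = (0 : ℝ) → inner ℝ v x < (0 : ℝ) := by
    intro x hx hxx hnx
    by_contra hc
    push Not at hc
    have hd := F.decomp x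
    rw [hnx, zero_smul, add_zero] at hd
    have h1 : inner ℝ u x ^ 2 + inner ℝ v x ^ 2 = (1 : ℝ) := by
      have := F.inner_self (inner ℝ u x) (inner ℝ v x) 0
      rw [zero_smul, add_zero, ← hd, hxx] at this
      linarith
    have h2 := F.circle_mem hLA hA h1 hc
    rw [← hd] at h2
    exact Set.disjoint_left.mp hAB h2 hx
  -- a point of `B` on the equator
  obtain ⟨s0, hs0, hs0'⟩ : ∃ s ∈ Icc 0 Real.pi,
      inner ℝ n (Real.cos s • u' + Real.sin s • v') = (0 : ℝ) := by
    have hcont : Continuous (fun s : ℝ => inner ℝ n (Real.cos s • u' + Real.sin s • v')) := by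
      fun_prop
    have e0 : inner ℝ n (Real.cos 0 • u' + Real.sin 0 • v') = (inner ℝ n u' : ℝ) := by simp
    have e1 : inner ℝ n (Real.cos Real.pi • u' + Real.sin Real.pi • v') = -(inner ℝ n u' : ℝ) := by
      simp
    rcases le_total (0 : ℝ) (inner ℝ n u') with h | h
    · have := intermediate_value_Icc' hpi.le hcont.continuousOn
      obtain ⟨s, hs, h2⟩ := this (show (0 : ℝ) ∈ _ from ⟨by rw [e1]; linarith, by rw [e0]; exact h⟩)
      exact ⟨s, hs, h2⟩
    · have := intermediate_value_Icc hpi.le hcont.continuousOn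
      obtain ⟨s, hs, h2⟩ := this (show (0 : ℝ) ∈ _ from ⟨by rw [e0]; exact h, by rw [e1]; linarith⟩)
      exact ⟨s, hs, h2⟩
  set q : E3 := Real.cos s0 • u' + Real.sin s0 • v' with hq
  have hqB : q ∈ B := hmem s0 hs0.1 (hs0.2.trans hL)
  have hqq : inner ℝ q q = (1 : ℝ) := hunit s0
  have hqv := hneg q hqB hqq hs0'
  -- `-q` is not in `B`
  have hnq : -q ∉ B := by
    intro hc
    have := hneg (-q) hc (by rw [inner_neg_neg, hqq]) (by rw [inner_neg_right, hs0', neg_zero])
    rw [inner_neg_right] at this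
    linarith
  have hs1 : s0 < Real.pi := by
    rcases hs0.2.eq_or_lt with h | h
    · exfalso
      apply hnq
      have := hmem 0 le_rfl (by linarith)
      rw [hq, h]
      simpa using this
    · exact h
  have hs2 : L < s0 + Real.pi := by
    by_contra hc
    push Not at hc
    apply hnq
    have := hmem (s0 + Real.pi) (by linarith [hs0.1]) hc
    rw [Real.cos_add_pi, Real.sin_add_pi] at this
    have e : -q = (-Real.cos s0) • u' + (-Real.sin s0) • v' := by
      rw [hq]; module
    rw [e]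
    exact this
  -- the direction
  set e0 : E3 := (-Real.sin s0) • u' + Real.cos s0 • v' with he0
  have hrot : ∀ t : ℝ, Real.cos t • u' + Real.sin t • v' =
      Real.cos (t - s0) • q + Real.sin (t - s0) • e0 := by
    intro t
    have h1 : Real.cos t = Real.cos (t - s0) * Real.cos s0 - Real.sin (t - s0) * Real.sin s0 := by
      rw [← Real.cos_add]; ring_nf
    have h2 : Real.sin t = Real.sin (t - s0) * Real.cos s0 + Real.cos (t - s0) * Real.sin s0 := by
      rw [← Real.sin_add]; ring_nf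
    rw [h1, h2, hq, he0]
    module
  have hne : inner ℝ n e0 ≠ (0 : ℝ) := by
    intro hc
    have h1 : ∀ t : ℝ, inner ℝ n (Real.cos t • u' + Real.sin t • v') = (0 : ℝ) := by
      intro t
      rw [hrot t, inner_add_right, inner_smul_right, inner_smul_right, hs0', hc]
      simp
    have a0 := hneg _ (hmem 0 le_rfl (by linarith)) (hunit 0) (h1 0)
    have a1 := hneg _ (hmem Real.pi hpi.le hL) (hunit Real.pi) (h1 Real.pi)
    simp at a0 a1
    linarith
  -- the coordinates of `q`
  have hqd := F.decomp q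
  rw [hs0', zero_smul, add_zero] at hqd
  set q1 := (inner ℝ u q : ℝ) with hq1
  set q2 := (inner ℝ v q : ℝ) with hq2
  have hκ : 0 < -q2 := by linarith
  have hqe : q = (-q2) • ((-(q1 / q2)) • u - v) := by
    have e : (-q2) * (-(q1 / q2)) = q1 := by
      have : q2 ≠ 0 := by linarith
      field_simp
    rw [smul_sub, smul_smul, e, neg_smul, sub_neg_eq_add]
    exact hqd
  have hed := F.decomp e0
  set e1 := (inner ℝ u e0 : ℝ) with he1
  set e2 := (inner ℝ v e0 : ℝ) with he2
  set e3 := (inner ℝ n e0 : ℝ) with he3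
  rcases lt_or_gt_of_ne hne with h | h
  · refine ⟨-(q1 / q2), rays_of F (κ := -q2) (e1 := -e1) (e2 := -e2) (e3 := -e3) (α := L - s0)
      (β := s0) hκ (by linarith) (by linarith) (by linarith) (by linarith) hs1 (by linarith) ?_⟩
    rw [← hqe]
    have hm : (-e1) • u + (-e2) • v + (-e3) • n = -e0 := by
      rw [hed]; module
    rw [hm, hB]
    ext x
    constructor
    · rintro ⟨t, ⟨h1, h2⟩, rfl⟩
      refine ⟨-(t - s0), ⟨by linarith, by linarith⟩, ?_⟩
      show Real.cos (-(t - s0)) • q + Real.sin (-(t - s0)) • (-e0) = _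
      rw [Real.cos_neg, Real.sin_neg]
      show _ = Real.cos t • u' + Real.sin t • v'
      rw [hrot t]
      module
    · rintro ⟨φ, ⟨h1, h2⟩, rfl⟩
      refine ⟨s0 - φ, ⟨by linarith, by linarith⟩, ?_⟩
      show Real.cos (s0 - φ) • u' + Real.sin (s0 - φ) • v' = Real.cos φ • q + Real.sin φ • (-e0)
      rw [hrot, show s0 - φ - s0 = -φ by ring, Real.cos_neg, Real.sin_neg]
      module
  · refine ⟨-(q1 / q2), rays_of F (κ := -q2) (e1 := e1) (e2 := e2) (e3 := e3) (α := s0)
      (β := L - s0) hκ h (by linarith) hs1 (by linarith) (by linarith) (by linarith) ?_⟩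
    rw [← hqe, ← hed, hB]
    ext x
    constructor
    · rintro ⟨t, ⟨h1, h2⟩, rfl⟩
      refine ⟨t - s0, ⟨by linarith, by linarith⟩, ?_⟩
      exact (hrot t).symm
    · rintro ⟨φ, ⟨h1, h2⟩, rfl⟩
      refine ⟨φ + s0, ⟨by linarith, by linarith⟩, ?_⟩
      show Real.cos (φ + s0) • u' + Real.sin (φ + s0) • v' = _
      rw [hrot, show φ + s0 - s0 = φ by ring]

end

end Pool.Agent.H302GC
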