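import Mathlib
import Pool.Agent.H302GC.Arc

/-! Assembly: a disjoint family of closed great-circle arcs of length at least `π` does not cover a
closed hemisphere bounded by the great circle of one of its members. -/

open Set

namespace Pool.Agent.H302GC

lemma norm_one_of_arc {u' v' : E3} (hu' : inner ℝ u' u' = (1 : ℝ)) (hv' : inner ℝ v' v' = (1 : ℝ))
    (huv' : inner ℝ u' v' = (0 : ℝ)) (t : ℝ) : ‖Real.cos t • u' + Real.sin t • v'‖ = 1 := by
  have hvu' : inner ℝ v' u' = (0 : ℝ) := by rw [real_inner_comm, huv']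
  have h : inner ℝ (Real.cos t • u' + Real.sin t • v')
      (Real.cos t • u' + Real.sin t • v') = (1 : ℝ) := by
    simp only [inner_add_left, inner_add_right, inner_smul_left, inner_smul_right, hu', hv', huv',
      hvu']
    simp
    have := Real.sin_sq_add_cos_sq t
    nlinarith
  rw [real_inner_self_eq_norm_sq] at h
  have h0 := norm_nonneg (Real.cos t • u' + Real.sin t • v')
  nlinarith

/-- two positive multiples of the same vector of norm one are equal -/
lemma smul_eq_of_norm {z : E3} {c c' : ℝ} (hc : 0 < c) (hc' : 0 < c') (h : ‖c • z‖ = 1)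
    (h' : ‖c' • z‖ = 1) : c • z = c' • z := by
  rw [norm_smul, Real.norm_of_nonneg hc.le] at h
  rw [norm_smul, Real.norm_of_nonneg hc'.le] at h'
  have hz : ‖z‖ ≠ 0 := by
    intro hz
    rw [hz, mul_zero] at h
    exact zero_ne_one h
  have : c = c' := mul_right_cancel₀ hz (h.trans h'.symm)
  rw [this]

lemma smul_eq_of_norm' {z : E3} {c c' : ℝ} (hc : 0 < c) (hc' : 0 < c') (h : ‖(-c) • z‖ = 1)
    (h' : ‖(-c') • z‖ = 1) : (-c) • z = (-c') • z := by
  rw [neg_smul, norm_neg] at h h'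
  rw [neg_smul, neg_smul, smul_eq_of_norm hc hc' h h']

lemma smul_inv_norm {z : E3} (hz : z ≠ 0) : ‖(1 / ‖z‖) • z‖ = 1 := by
  have h : 0 < ‖z‖ := norm_pos_iff.mpr hz
  rw [norm_smul, Real.norm_of_nonneg (by positivity)]
  field_simp

/-- the directions which belong to the first arc form a lower set -/
lemma Frame.lower {u v n : E3} (F : Frame u v n) {LA : ℝ} (hLA' : LA < 2 * Real.pi)
    {A : Set E3} (hA : A = (fun t : ℝ => Real.cos t • u + Real.sin t • v) '' Icc 0 LA) {a a' : ℝ}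
    (haa : a ≤ a') (h : ∃ c : ℝ, 0 < c ∧ c • (a' • u - v) ∈ A) :
    ∃ c : ℝ, 0 < c ∧ c • (a • u - v) ∈ A := by
  obtain ⟨c, hc, hm⟩ := h
  rw [hA] at hm
  obtain ⟨t, ⟨h1, h2⟩, h3⟩ := hm
  change Real.cos t • u + Real.sin t • v = c • (a' • u - v) at h3
  have e1 : Real.cos t • u + Real.sin t • v =
      Real.cos t • u + Real.sin t • v + (0 : ℝ) • n := by module
  have e2 : c • (a' • u - v) = (c * a') • u + (-c) • v + (0 : ℝ) • n := by module
  rw [e1, e2] at h3
  obtain ⟨h4, h5, -⟩ := F.coords h3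
  have hpi := Real.pi_pos
  have hsin : Real.sin t < 0 := by linarith
  have ht : Real.pi < t := by
    by_contra hcon
    push Not at hcon
    have := Real.sin_nonneg_of_nonneg_of_le_pi h1 hcon
    linarith
  set θ := t - 3 * Real.pi / 2 with hθ
  have hθ1 : -(Real.pi / 2) < θ := by linarith
  have hθ2 : θ < Real.pi / 2 := by linarith
  have hsinθ : ∀ x : ℝ, Real.cos (x + 3 * Real.pi / 2) = Real.sin x := by
    intro x
    rw [show x + 3 * Real.pi / 2 = (x + Real.pi / 2) + Real.pi by ring, Real.cos_add_pi,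
      Real.cos_add_pi_div_two, neg_neg]
  have hcosθ : ∀ x : ℝ, Real.sin (x + 3 * Real.pi / 2) = - Real.cos x := by
    intro x
    rw [show x + 3 * Real.pi / 2 = (x + Real.pi / 2) + Real.pi by ring, Real.sin_add_pi,
      Real.sin_add_pi_div_two]
  have htθ : t = θ + 3 * Real.pi / 2 := by rw [hθ]; ring
  have hcos : 0 < Real.cos θ := Real.cos_pos_of_mem_Ioo ⟨hθ1, hθ2⟩
  have ha' : a' = Real.tan θ := by
    rw [Real.tan_eq_sin_div_cos, eq_div_iff hcos.ne', ← hsinθ θ, ← htθ]
    have : Real.cos θ = c := by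
      have := hcosθ θ
      rw [← htθ] at this
      linarith
    rw [this, h4]
    ring
  have hle : Real.arctan a ≤ θ := by
    have := Real.arctan_mono haa
    rwa [ha', Real.arctan_tan hθ1 hθ2] at this
  have hgt := Real.neg_pi_div_two_lt_arctan a
  refine ⟨Real.cos (Real.arctan a), Real.cos_arctan_pos a, ?_⟩
  rw [hA]
  refine ⟨Real.arctan a + 3 * Real.pi / 2, ⟨by linarith, by linarith⟩, ?_⟩
  show Real.cos (Real.arctan a + 3 * Real.pi / 2) • u +
    Real.sin (Real.arctan a + 3 * Real.pi / 2) • v = _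
  rw [hsinθ, hcosθ]
  have h6 := Real.tan_arctan a
  rw [Real.tan_eq_sin_div_cos, div_eq_iff (Real.cos_arctan_pos a).ne'] at h6
  rw [h6]
  module

theorem hemisphere {u v n : E3} (F : Frame u v n) (𝓐 : Set (Set E3))
    (harc : ∀ B ∈ 𝓐, ∃ (L : ℝ) (u' v' : E3), Real.pi ≤ L ∧ inner ℝ u' u' = (1 : ℝ) ∧
      inner ℝ v' v' = (1 : ℝ) ∧ inner ℝ u' v' = (0 : ℝ) ∧
      B = (fun t : ℝ => Real.cos t • u' + Real.sin t • v') '' Icc 0 L)
    (hd : 𝓐.PairwiseDisjoint id) {A : Set E3} (hA𝓐 : A ∈ 𝓐) {LA : ℝ} (hLA : Real.pi ≤ LA)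
    (hLA' : LA < 2 * Real.pi)
    (hA : A = (fun t : ℝ => Real.cos t • u + Real.sin t • v) '' Icc 0 LA)
    (hcov : ∀ x : E3, ‖x‖ = 1 → 0 ≤ (inner ℝ n x : ℝ) → ∃ B ∈ 𝓐, x ∈ B) : False := by
  have hnorm : ∀ B ∈ 𝓐, ∀ x ∈ B, ‖x‖ = 1 := by
    intro B hB x hx
    obtain ⟨L, u', v', -, h1, h2, h3, h4⟩ := harc B hB
    rw [h4] at hx
    obtain ⟨t, -, rfl⟩ := hx
    exact norm_one_of_arc h1 h2 h3 t
  have hdis : ∀ B ∈ 𝓐, ∀ B' ∈ 𝓐, ∀ x, x ∈ B → x ∈ B' → B = B' := by
    intro B hB B' hB' x h1 h2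
    by_contra hne
    exact Set.disjoint_left.mp (hd hB hB' hne) h1 h2
  have hother : ∀ B ∈ 𝓐, B ≠ A → ∃ a b Yp Yn, Rays u v n B a b Yp Yn := by
    intro B hB hne
    obtain ⟨L, u', v', hL, h1, h2, h3, h4⟩ := harc B hB
    exact other F hLA hA h1 h2 h3 hL h4 (hd hA𝓐 hB hne.symm)
  have hAn : ∀ x ∈ A, (inner ℝ n x : ℝ) = 0 := by
    intro x hx
    rw [hA] at hx
    obtain ⟨t, -, rfl⟩ := hx
    have := F.in_n (Real.cos t) (Real.sin t) 0
    rwa [zero_smul, add_zero] at this
  set J : Set ℝ := {a | ∃ B ∈ 𝓐, B ≠ A ∧ ∃ c : ℝ, 0 < c ∧ c • (a • u - v) ∈ B} with hJ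
  have hsame : ∀ B ∈ 𝓐, ∀ B' ∈ 𝓐, ∀ z : E3, (∃ c : ℝ, 0 < c ∧ c • z ∈ B) →
      (∃ c : ℝ, 0 < c ∧ c • z ∈ B') → B = B' := by
    rintro B hB B' hB' z ⟨c, hc, h1⟩ ⟨c', hc', h2⟩
    apply hdis B hB B' hB' _ h1
    rw [smul_eq_of_norm hc hc' (hnorm B hB _ h1) (hnorm B' hB' _ h2)]
    exact h2
  have hsame' : ∀ B ∈ 𝓐, ∀ B' ∈ 𝓐, ∀ z : E3, (∃ c : ℝ, 0 < c ∧ (-c) • z ∈ B) →
      (∃ c : ℝ, 0 < c ∧ (-c) • z ∈ B') → B = B' := by
    rintro B hB B' hB' z ⟨c, hc, h1⟩ ⟨c', hc', h2⟩
    apply hdis B hB B' hB' _ h1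
    rw [smul_eq_of_norm' hc hc' (hnorm B hB _ h1) (hnorm B' hB' _ h2)]
    exact h2
  have hex : ∀ a ∈ J, ∃ (B : Set E3) (b Yp Yn : ℝ), B ∈ 𝓐 ∧ B ≠ A ∧ Rays u v n B a b Yp Yn := by
    rintro a ⟨B, hB, hne, c, hc, hm⟩
    obtain ⟨a', b, Yp, Yn, hR⟩ := hother B hB hne
    have := hR.uniq a c hc hm
    subst this
    exact ⟨B, b, Yp, Yn, hB, hne, hR⟩
  choose! Bf b Yp Yn hB𝓐 hBA hR using hex
  -- the vector of a point of the plane
  have hzn : ∀ X Y : ℝ, (inner ℝ n (X • u - Y • v + n) : ℝ) = 1 := by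
    intro X Y
    have := F.in_n X (-Y) 1
    rwa [show X • u + (-Y) • v + (1 : ℝ) • n = X • u - Y • v + n by module] at this
  have hz0 : ∀ X Y : ℝ, X • u - Y • v + n ≠ 0 := by
    intro X Y h
    have := hzn X Y
    rw [h, inner_zero_right] at this
    exact zero_ne_one this
  have hfam : Fam J b Yp Yn := by
    refine ⟨?_, ?_, ?_, ?_, ?_⟩
    · -- `J` is an upper set
      constructor
      intro a ha a2 _ a1 ha1
      have hnot : ¬ ∃ c : ℝ, 0 < c ∧ c • (a1 • u - v) ∈ A := by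
        intro h
        have h1 := F.lower hLA' hA ha1.1 h
        obtain ⟨B, hB, hne, h2⟩ := ha
        exact hne (hsame B hB A hA𝓐 _ h2 h1)
      have hw : a1 • u - v ≠ 0 := by
        intro h
        have := F.in_v a1 (-1) 0
        rw [show a1 • u + (-1 : ℝ) • v + (0 : ℝ) • n = a1 • u - v by module, h,
          inner_zero_right] at this
        norm_num at this
      have hpos : 0 < 1 / ‖a1 • u - v‖ := by
        have := norm_pos_iff.mpr hw
        positivity
      obtain ⟨B, hB, hm⟩ := hcov ((1 / ‖a1 • u - v‖) • (a1 • u - v)) (smul_inv_norm hw) (by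
        rw [inner_smul_right]
        have := F.in_n a1 (-1) 0
        rw [show a1 • u + (-1 : ℝ) • v + (0 : ℝ) • n = a1 • u - v by module] at this
        rw [this, mul_zero])
      refine ⟨B, hB, ?_, _, hpos, hm⟩
      rintro rfl
      exact hnot ⟨_, hpos, hm⟩
    · intro a ha
      exact (hR a ha).le
    · intro y a a' ha ha' h1 h2 haa
      by_contra hc
      push Not at hc
      have hk : 0 < a' - a := by linarith
      set Y := y + (g b y a - g b y a') / (a' - a) with hY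
      have hYy : y ≤ Y := by
        rw [hY]
        have : 0 ≤ (g b y a - g b y a') / (a' - a) := div_nonneg (by linarith) hk.le
        linarith
      have hgg : a * Y + b a = a' * Y + b a' := by
        have e : (Y - y) * (a' - a) = g b y a - g b y a' := by
          rw [hY, add_sub_cancel_left]; field_simp
        unfold g at e
        linarith
      have m1 := (hR a ha).up Y (h1.trans hYy)
      have m2 := (hR a' ha').up Y (h2.trans hYy)
      rw [hgg] at m1
      have hBB := hsame _ (hB𝓐 a ha) _ (hB𝓐 a' ha') _ m1 m2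
      obtain ⟨c, hc', hm⟩ := (hR a' ha').mem
      rw [← hBB] at hm
      have := (hR a ha).uniq a' c hc' hm
      linarith
    · intro y X
      have hpos : 0 < 1 / ‖X • u - y • v + n‖ := by
        have := norm_pos_iff.mpr (hz0 X y)
        positivity
      obtain ⟨B, hB, hm⟩ := hcov ((1 / ‖X • u - y • v + n‖) • (X • u - y • v + n))
        (smul_inv_norm (hz0 X y)) (by rw [inner_smul_right, hzn, mul_one]; exact hpos.le)
      have hne : B ≠ A := by
        rintro rfl
        have := hAn _ hm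
        rw [inner_smul_right, hzn, mul_one] at this
        linarith
      obtain ⟨a, b', Yp', Yn', hR'⟩ := hother B hB hne
      have haJ : a ∈ J := ⟨B, hB, hne, hR'.mem⟩
      have hBB : B = Bf a := hsame _ hB _ (hB𝓐 a haJ) _ hR'.mem (hR a haJ).mem
      rw [hBB] at hm
      obtain ⟨h1, h2⟩ := (hR a haJ).conv X y _ hpos hm
      exact ⟨a, haJ, h2, h1.symm⟩
    · intro y a a' ha ha' h1 h2 haa
      by_contra hc
      push Not at hc
      have hk : 0 < a' - a := by linarith
      set Y := y - (g b y a' - g b y a) / (a' - a) with hY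
      have hYy : Y ≤ y := by
        rw [hY]
        have : 0 ≤ (g b y a' - g b y a) / (a' - a) := div_nonneg (by linarith) hk.le
        linarith
      have hgg : a * Y + b a = a' * Y + b a' := by
        have e : (y - Y) * (a' - a) = g b y a' - g b y a := by
          rw [hY, sub_sub_cancel]; field_simp
        unfold g at e
        linarith
      have m1 := (hR a ha).dn Y (hYy.trans h1)
      have m2 := (hR a' ha').dn Y (hYy.trans h2)
      rw [hgg] at m1
      have hBB := hsame' _ (hB𝓐 a ha) _ (hB𝓐 a' ha') _ m1 m2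
      obtain ⟨c, hc', hm⟩ := (hR a' ha').mem
      rw [← hBB] at hm
      have := (hR a ha).uniq a' c hc' hm
      linarith
  apply hfam.false
  have hn1 : ‖n‖ = 1 := by
    have := F.nn
    rw [real_inner_self_eq_norm_sq] at this
    have h0 := norm_nonneg n
    nlinarith
  obtain ⟨B, hB, hm⟩ := hcov n hn1 (by rw [F.nn]; norm_num)
  have hne : B ≠ A := by
    rintro rfl
    have := hAn _ hm
    rw [F.nn] at this
    exact one_ne_zero this
  obtain ⟨a, b', Yp', Yn', hR'⟩ := hother B hB hne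
  exact ⟨a, B, hB, hne, hR'.mem⟩

end Pool.Agent.H302GC
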